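import Mathlib

/-!
# MP_cf426b_al: semigroups of rank at most 10 with connected commuting graphs of large diameter
-/

set_option autoImplicit false

namespace Pool.Agent.Results.MP_cf426b_al.RankTenUnbounded

/-- The commuting graph of the semigroup `S`: the vertices are the non-central elements, and
distinct vertices are adjacent when they commute. -/
def commutingGraph (S : Type) [Semigroup S] : SimpleGraph {x : S // ¬ ∀ s : S, x * s = s * x} where
  Adj x y := x ≠ y ∧ (x : S) * (y : S) = (y : S) * (x : S)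
  symm := ⟨fun _ _ ⟨h1, h2⟩ => ⟨h1.symm, h2.symm⟩⟩
  loopless := ⟨fun _ h => h.1 rfl⟩

/-- Indices of rows and columns: a fixed point and two copies of the naturals. -/
abbrev Idx : Type := Option (Bool × ℕ)

/-- The shift. -/
def sh (k : ℕ) : Idx → Idx
  | none => none
  | some (b, n) => some (b, n + k)

theorem sh_sh (k l : ℕ) (i : Idx) : sh k (sh l i) = sh (l + k) i := by
  rcases i with _ | ⟨b, n⟩
  · rfl
  · simp [sh, add_assoc]

/-- The zero pattern of the sandwich matrix. -/
def Zp (M : ℕ) : Idx → Idx → Prop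
  | none, none => False
  | none, some (b, _) => b = false
  | some (b, _), none => b = false
  | some (false, _), some (false, _) => False
  | some (true, m), some (false, n) => m + n = 0
  | some (false, m), some (true, n) => m + n = 0
  | some (true, m), some (true, n) => (m + n) % M = 0 ∨ (m + n) % M = 1

theorem Zp_symm {M : ℕ} {x y : Idx} (h : Zp M x y) : Zp M y x := by
  rcases x with _ | ⟨_ | _, m⟩ <;> rcases y with _ | ⟨_ | _, n⟩ <;> simp_all [Zp, add_comm]

/-- The pattern is compatible with the shifts if the mixed blocks vanish beyond the origin only. -/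
theorem Zp_shift {M : ℕ} (k : ℕ) (x y : Idx) : Zp M (sh k x) y ↔ Zp M x (sh k y) := by
  rcases x with _ | ⟨_ | _, m⟩ <;> rcases y with _ | ⟨_ | _, n⟩ <;> simp only [Zp, sh] <;>
    first
      | (have e : m + k + n = m + (n + k) := by ring
         rw [e])
      | skip

/-- The elements of the semigroup: the powers `c ^ (k + 1)`, the matrix units and zero. -/
inductive El (M : ℕ) : Type
  | c (k : ℕ) : El M
  | e (i l : Idx) : El M
  | z : El M

namespace El

variable {M : ℕ}

open Classical in
/-- Multiplication. -/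
noncomputable def mul : El M → El M → El M
  | c k, c l => c (k + l + 1)
  | c k, e i l => e (sh (k + 1) i) l
  | e i l, c k => e i (sh (k + 1) l)
  | e i l, e j m => if Zp M l j then z else e i m
  | c _, z => z
  | e _ _, z => z
  | z, _ => z

noncomputable instance : Mul (El M) := ⟨mul⟩

theorem c_c (k l : ℕ) : (c k * c l : El M) = c (k + l + 1) := rfl
theorem c_e (k : ℕ) (i l : Idx) : (c k * e i l : El M) = e (sh (k + 1) i) l := rfl
theorem e_c (k : ℕ) (i l : Idx) : (e i l * c k : El M) = e i (sh (k + 1) l) := rfl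
theorem e_e_zero {i l j m : Idx} (h : Zp M l j) : (e i l * e j m : El M) = z := if_pos h
theorem e_e_one {i l j m : Idx} (h : ¬ Zp M l j) : (e i l * e j m : El M) = e i m := if_neg h
theorem z_mul (x : El M) : z * x = z := by cases x <;> rfl
theorem mul_z (x : El M) : x * z = z := by cases x <;> rfl

theorem assoc (x y w : El M) : x * y * w = x * (y * w) := by
  rcases x with k | ⟨i, l⟩ | _
  · rcases y with k' | ⟨j, m⟩ | _
    · rcases w with k'' | ⟨r, s⟩ | _
      · rw [c_c, c_c, c_c, c_c]; congr 1; ring
      · rw [c_c, c_e, c_e, c_e, sh_sh]; congr 2; ring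
      · rw [mul_z, mul_z, mul_z]
    · rcases w with k'' | ⟨r, s⟩ | _
      · rw [c_e, e_c, e_c, c_e]
      · rw [c_e]
        by_cases h : Zp M m r
        · rw [e_e_zero h, e_e_zero h, mul_z]
        · rw [e_e_one h, e_e_one h, c_e]
      · rw [mul_z, mul_z, mul_z]
    · rw [mul_z, z_mul, mul_z]
  · rcases y with k' | ⟨j, m⟩ | _
    · rcases w with k'' | ⟨r, s⟩ | _
      · rw [e_c, e_c, c_c, e_c, sh_sh]; congr 2; ring
      · rw [e_c, c_e]
        by_cases h : Zp M (sh (k' + 1) l) r
        · rw [e_e_zero h, e_e_zero ((Zp_shift _ _ _).1 h)]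
        · rw [e_e_one h, e_e_one (fun h' => h ((Zp_shift _ _ _).2 h'))]
      · rw [mul_z, mul_z, mul_z]
    · rcases w with k'' | ⟨r, s⟩ | _
      · rw [e_c]
        by_cases h : Zp M l j
        · rw [e_e_zero h, e_e_zero h, z_mul]
        · rw [e_e_one h, e_e_one h, e_c]
      · by_cases h : Zp M l j <;> by_cases h' : Zp M m r
        · rw [e_e_zero h, e_e_zero h', z_mul, mul_z]
        · rw [e_e_zero h, e_e_one h', z_mul, e_e_zero h]
        · rw [e_e_one h, e_e_zero h', e_e_zero h', mul_z]
        · rw [e_e_one h, e_e_one h', e_e_one h', e_e_one h]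
      · rw [mul_z, mul_z, mul_z]
    · rw [mul_z, z_mul, mul_z]
  · rw [z_mul, z_mul, z_mul]

noncomputable instance : Semigroup (El M) := { mul_assoc := assoc }

end El

open El

variable {M : ℕ}

theorem c_noncentral (k : ℕ) : ¬ ∀ s : El M, c k * s = s * c k := by
  intro h
  have h1 := h (e (some (false, 0)) (some (false, 0)))
  rw [c_e, e_c] at h1
  simp [sh] at h1

theorem e_noncentral (i l : Idx) : ¬ ∀ s : El M, e i l * s = s * e i l := by
  intro h
  have h1 := h (c 0)
  rw [c_e, e_c] at h1
  rcases i with _ | ⟨b, n⟩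
  · rcases l with _ | ⟨b', n'⟩
    · have h2 := h (e none (some (true, 0)))
      rw [e_e_one (by simp [Zp]), e_e_one (by simp [Zp])] at h2
      simp at h2
    · simp [sh] at h1
  · rcases l with _ | ⟨b', n'⟩
    · simp [sh] at h1
    · simp [sh] at h1

/-- The vertices. -/
def vc (k : ℕ) : {x : El M // ¬ ∀ s : El M, x * s = s * x} := ⟨c k, c_noncentral k⟩
/-- The vertices. -/
def ve (p : Idx × Idx) : {x : El M // ¬ ∀ s : El M, x * s = s * x} := ⟨e p.1 p.2, e_noncentral _ _⟩

theorem vertex_cases (v : {x : El M // ¬ ∀ s : El M, x * s = s * x}) :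
    (∃ k, v = vc k) ∨ ∃ p, v = ve p := by
  obtain ⟨x, hx⟩ := v
  rcases x with k | ⟨i, l⟩ | _
  · exact Or.inl ⟨k, rfl⟩
  · exact Or.inr ⟨(i, l), rfl⟩
  · exact absurd (fun s => by rw [z_mul, mul_z]) hx

/-- Two matrix units with both products zero. -/
def R (M : ℕ) (p q : Idx × Idx) : Prop := Zp M p.2 q.1 ∧ Zp M q.2 p.1

theorem comm_iff {p q : Idx × Idx} (hne : p ≠ q) :
    (e p.1 p.2 * e q.1 q.2 : El M) = e q.1 q.2 * e p.1 p.2 ↔ R M p q := by
  unfold R
  by_cases h1 : Zp M p.2 q.1 <;> by_cases h2 : Zp M q.2 p.1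
  · rw [e_e_zero h1, e_e_zero h2]
    simp [h1, h2]
  · rw [e_e_zero h1, e_e_one h2]
    simp [h2]
  · rw [e_e_one h1, e_e_zero h2]
    simp [h1]
  · rw [e_e_one h1, e_e_one h2]
    simp only [h1, h2, and_self, iff_false, El.e.injEq, not_and]
    intro h3 h4
    exact hne (Prod.ext h3 h4.symm)

theorem R.swap {p q : Idx × Idx} (h : R M p q) : R M p.swap q.swap :=
  ⟨Zp_symm h.2, Zp_symm h.1⟩

theorem R.symm {p q : Idx × Idx} (h : R M p q) : R M q p := ⟨h.2, h.1⟩

/-- Chains of pairs. -/
def Rc (M : ℕ) (p q : Idx × Idx) : Prop := Relation.ReflTransGen (R M) p q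

theorem Rc.swap {p q : Idx × Idx} (h : Rc M p q) : Rc M p.swap q.swap := by
  induction h with
  | refl => exact Relation.ReflTransGen.refl
  | tail _ h2 ih => exact ih.tail h2.swap

theorem reach_of_Rc {p q : Idx × Idx} (h : Rc M p q) :
    (commutingGraph (El M)).Reachable (ve p) (ve q) := by
  induction h with
  | refl => exact SimpleGraph.Reachable.refl _
  | @tail b d _ h2 ih =>
    refine ih.trans ?_
    by_cases hbd : b = d
    · rw [hbd]
    · apply SimpleGraph.Adj.reachable
      refine ⟨fun h => hbd ?_, (comm_iff hbd).2 h2⟩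
      have h3 := congrArg Subtype.val h
      simp only [ve, El.e.injEq] at h3
      exact Prod.ext h3.1 h3.2

theorem U_zero : Rc M (none, some (true, 0)) (none, none) := by
  refine (Relation.ReflTransGen.single (b := (some (false, 0), some (false, 0))) ?_).tail ?_
  · exact ⟨rfl, rfl⟩
  · exact ⟨rfl, rfl⟩

theorem modM (hM : 2 ≤ M) (n : ℕ) : (n + n * (M - 1)) % M = 0 ∧ (n + 1 + n * (M - 1)) % M = 1 := by
  have e : n + n * (M - 1) = M * n := by
    obtain ⟨M', rfl⟩ : ∃ M', M = M' + 1 := ⟨M - 1, by omega⟩
    rw [Nat.add_sub_cancel]; ring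
  have e2 : n + 1 + n * (M - 1) = M * n + 1 := by
    rw [← e]; ring
  rw [e, e2]
  refine ⟨Nat.mul_mod_right _ _, ?_⟩
  rw [Nat.mul_add_mod]
  exact Nat.mod_eq_of_lt (by omega)

theorem U_all (hM : 2 ≤ M) (n : ℕ) : Rc M (none, some (true, n)) (none, none) := by
  induction n with
  | zero => exact U_zero
  | succ n ih =>
    obtain ⟨h1, h2⟩ := modM hM n
    refine Relation.ReflTransGen.trans ?_ ih
    refine (Relation.ReflTransGen.single
      (b := (some (true, n * (M - 1)), some (false, 0))) ?_).tail ?_
    · exact ⟨Or.inr h2, rfl⟩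
    · exact ⟨rfl, Or.inl h1⟩

theorem V_all (hM : 2 ≤ M) (j m : ℕ) :
    Rc M (some (true, j), some (false, m)) (none, none) := by
  refine Relation.ReflTransGen.head (b := (none, some (true, j * (M - 1)))) ?_ (U_all hM _)
  refine ⟨rfl, Or.inl ?_⟩
  rw [add_comm]
  exact (modM hM j).1

theorem W_all (hM : 2 ≤ M) (b : ℕ) : Rc M (none, some (false, b)) (none, none) := by
  refine Relation.ReflTransGen.head (b := (none, some (false, 0))) ⟨rfl, rfl⟩ ?_
  exact Relation.ReflTransGen.head (b := (some (true, 0), some (false, 0))) ⟨rfl, rfl⟩ (V_all hM 0 0)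

theorem X_zero : Rc M (some (true, 0), some (true, 0)) (none, none) := by
  refine (Relation.ReflTransGen.single (b := (some (false, 0), some (false, 0))) ?_).tail ?_
  · exact ⟨rfl, rfl⟩
  · exact ⟨rfl, rfl⟩

theorem X_step (hM : 2 ≤ M) (a b : ℕ) :
    Rc M (some (true, a + 1), some (true, b)) (some (true, a), some (true, b)) := by
  obtain ⟨h1, h2⟩ := modM hM a
  obtain ⟨h3, h4⟩ := modM hM b
  refine (Relation.ReflTransGen.single
    (b := (some (true, b * (M - 1)), some (true, a * (M - 1)))) ?_).tail ?_
  · refine ⟨Or.inl h3, Or.inr ?_⟩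
    rw [add_comm]; exact h2
  · refine ⟨Or.inl ?_, Or.inl h3⟩
    rw [add_comm]; exact h1

theorem X_all (hM : 2 ≤ M) (a b : ℕ) : Rc M (some (true, a), some (true, b)) (none, none) := by
  induction a with
  | zero =>
    induction b with
    | zero => exact X_zero
    | succ b ih => exact ((X_step hM b 0).swap).trans ih
  | succ a ih => exact (X_step hM a b).trans ih

theorem all_reach (hM : 2 ≤ M) (p : Idx × Idx) : Rc M p (none, none) := by
  have sw : ∀ p : Idx × Idx, Rc M p.swap (none, none) → Rc M p (none, none) := by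
    intro p h
    have := h.swap
    rwa [Prod.swap_swap] at this
  obtain ⟨i, l⟩ := p
  rcases i with _ | ⟨_ | _, m⟩ <;> rcases l with _ | ⟨_ | _, n⟩
  · exact Relation.ReflTransGen.refl
  · exact W_all hM n
  · exact U_all hM n
  · exact sw _ (W_all hM m)
  · exact Relation.ReflTransGen.single ⟨rfl, rfl⟩
  · exact sw _ (V_all hM n m)
  · exact sw _ (U_all hM m)
  · exact V_all hM m n
  · exact X_all hM m n

theorem connected (hM : 2 ≤ M) : (commutingGraph (El M)).Connected := by
  have key : ∀ v, (commutingGraph (El M)).Reachable v (ve (none, none)) := by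
    intro v
    rcases vertex_cases v with ⟨k, rfl⟩ | ⟨p, rfl⟩
    · apply SimpleGraph.Adj.reachable
      refine ⟨fun h => ?_, rfl⟩
      have h3 := congrArg Subtype.val h
      simp [vc, ve] at h3
    · exact reach_of_Rc (all_reach hM p)
  have : Nonempty {x : El M // ¬ ∀ s : El M, x * s = s * x} := ⟨ve (none, none)⟩
  exact ⟨fun u v => (key u).trans (key v).symm⟩

/-- The value of an index. -/
def val : Idx → ℕ
  | some (true, n) => n
  | _ => 0

/-- The potential. -/
def pot : El M → ZMod M
  | e i l => (val i : ZMod M) - (val l : ZMod M)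
  | _ => 0

theorem val_zero_or_one {x y : Idx} (h : Zp M x y) :
    ((val x : ZMod M) + (val y : ZMod M) = 0) ∨ ((val x : ZMod M) + (val y : ZMod M) = 1) := by
  rcases x with _ | ⟨_ | _, m⟩ <;> rcases y with _ | ⟨_ | _, n⟩
  · exact absurd h (by simp [Zp])
  · left; simp [val]
  · exact absurd h (by simp [Zp])
  · left; simp [val]
  · exact absurd h (by simp [Zp])
  · left
    have : m + n = 0 := h
    have : n = 0 := by omega
    simp [val, this]
  · exact absurd h (by simp [Zp])
  · left
    have : m + n = 0 := h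
    have : m = 0 := by omega
    simp [val, this]
  · have h' : (m + n) % M = 0 ∨ (m + n) % M = 1 := h
    simp only [val]
    rw [← Nat.cast_add]
    rcases h' with h' | h'
    · left
      exact (ZMod.natCast_eq_zero_iff _ _).2 (Nat.dvd_of_mod_eq_zero h')
    · right
      rw [← Nat.mod_add_div (m + n) M, h', Nat.cast_add, Nat.cast_mul, ZMod.natCast_self, zero_mul,
        add_zero, Nat.cast_one]

theorem pot_adj {v w : {x : El M // ¬ ∀ s : El M, x * s = s * x}}
    (h : (commutingGraph (El M)).Adj v w) :
    ∃ k : ℤ, |k| ≤ 1 ∧ pot w.1 = pot v.1 + k := by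
  obtain ⟨hne, hc⟩ := h
  rcases vertex_cases v with ⟨k, rfl⟩ | ⟨p, rfl⟩ <;> rcases vertex_cases w with ⟨k', rfl⟩ | ⟨q, rfl⟩
  · exact ⟨0, by simp, by simp [pot, vc]⟩
  · have hc' : (c k * e q.1 q.2 : El M) = e q.1 q.2 * c k := hc
    rw [c_e, e_c] at hc'
    obtain ⟨i, l⟩ := q
    rcases i with _ | ⟨b, n⟩ <;> rcases l with _ | ⟨b', n'⟩
    · exact ⟨0, by simp, by simp [pot, vc, ve, val]⟩
    all_goals simp [sh] at hc'
  · have hc' : (e p.1 p.2 * c k' : El M) = c k' * e p.1 p.2 := hc
    rw [c_e, e_c] at hc'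
    obtain ⟨i, l⟩ := p
    rcases i with _ | ⟨b, n⟩ <;> rcases l with _ | ⟨b', n'⟩
    · exact ⟨0, by simp, by simp [pot, vc, ve, val]⟩
    all_goals simp [sh] at hc'
  · have hpq : p ≠ q := by
      rintro rfl
      exact hne rfl
    have hR : R M p q := (comm_iff hpq).1 hc
    have h1 := val_zero_or_one hR.1
    have h2 := val_zero_or_one hR.2
    simp only [ve, pot]
    rcases h1 with h1 | h1 <;> rcases h2 with h2 | h2
    · refine ⟨0, by simp, ?_⟩
      push_cast
      linear_combination h1 - h2
    · refine ⟨-1, by simp, ?_⟩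
      push_cast
      linear_combination h1 - h2
    · refine ⟨1, by simp, ?_⟩
      push_cast
      linear_combination h1 - h2
    · refine ⟨0, by simp, ?_⟩
      push_cast
      linear_combination h1 - h2

theorem pot_walk {v w : {x : El M // ¬ ∀ s : El M, x * s = s * x}}
    (p : (commutingGraph (El M)).Walk v w) :
    ∃ k : ℤ, |k| ≤ p.length ∧ pot w.1 = pot v.1 + k := by
  induction p with
  | nil => exact ⟨0, by simp, by simp⟩
  | cons h p ih =>
    obtain ⟨k1, hk1, e1⟩ := pot_adj h
    obtain ⟨k2, hk2, e2⟩ := ih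
    refine ⟨k1 + k2, ?_, ?_⟩
    · rw [SimpleGraph.Walk.length_cons]
      push_cast
      exact (abs_add_le k1 k2).trans (by linarith)
    · rw [e2, e1]
      push_cast
      ring

/-- The generators. -/
noncomputable def gens (M : ℕ) : Finset (El M) :=
  open Classical in
  insert (c 0) ((({none, some (false, 0), some (true, 0)} : Finset Idx) ×ˢ
    ({none, some (false, 0), some (true, 0)} : Finset Idx)).image (fun p => e p.1 p.2))

theorem gens_card : (gens M).card ≤ 10 := by
  classical
  unfold gens
  refine (Finset.card_insert_le _ _).trans ?_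
  have h1 : (({none, some (false, 0), some (true, 0)} : Finset Idx)).card ≤ 3 := Finset.card_le_three
  have h2 := Finset.card_image_le (s := ({none, some (false, 0), some (true, 0)} : Finset Idx) ×ˢ
    ({none, some (false, 0), some (true, 0)} : Finset Idx)) (f := fun p => (e p.1 p.2 : El M))
  rw [Finset.card_product] at h2
  have h3 := Nat.mul_le_mul h1 h1
  omega

theorem gens_closure : Subsemigroup.closure (gens M : Set (El M)) = ⊤ := by
  classical
  have hc0 : (c 0 : El M) ∈ Subsemigroup.closure (gens M : Set (El M)) :=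
    Subsemigroup.subset_closure (by simp [gens])
  have hc : ∀ k, (c k : El M) ∈ Subsemigroup.closure (gens M : Set (El M)) := by
    intro k
    induction k with
    | zero => exact hc0
    | succ k ih =>
      have := Subsemigroup.mul_mem _ ih hc0
      rwa [c_c] at this
  have base : ∀ i l : Idx, (i = none ∨ i = some (false, 0) ∨ i = some (true, 0)) →
      (l = none ∨ l = some (false, 0) ∨ l = some (true, 0)) →
      (e i l : El M) ∈ Subsemigroup.closure (gens M : Set (El M)) := by
    intro i l hi hl
    apply Subsemigroup.subset_closure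
    unfold gens
    rw [Finset.coe_insert, Set.mem_insert_iff]
    right
    rw [Finset.coe_image, Set.mem_image]
    refine ⟨(i, l), ?_, rfl⟩
    rw [Finset.mem_coe, Finset.mem_product]
    simp only [Finset.mem_insert, Finset.mem_singleton]
    exact ⟨hi, hl⟩
  have shr : ∀ i : Idx, ∃ j : Idx, (j = none ∨ j = some (false, 0) ∨ j = some (true, 0)) ∧
      (i = j ∨ ∃ k, i = sh (k + 1) j) := by
    intro i
    rcases i with _ | ⟨_ | _, n⟩
    · exact ⟨none, Or.inl rfl, Or.inl rfl⟩
    · refine ⟨some (false, 0), Or.inr (Or.inl rfl), ?_⟩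
      rcases n with _ | n
      · exact Or.inl rfl
      · exact Or.inr ⟨n, by simp [sh]⟩
    · refine ⟨some (true, 0), Or.inr (Or.inr rfl), ?_⟩
      rcases n with _ | n
      · exact Or.inl rfl
      · exact Or.inr ⟨n, by simp [sh]⟩
  have he : ∀ i l : Idx, (e i l : El M) ∈ Subsemigroup.closure (gens M : Set (El M)) := by
    intro i l
    obtain ⟨j, hj, hij⟩ := shr i
    obtain ⟨m, hm, hlm⟩ := shr l
    have h1 : (e j l : El M) ∈ Subsemigroup.closure (gens M : Set (El M)) := by
      rcases hlm with rfl | ⟨k, rfl⟩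
      · exact base _ _ hj hm
      · rw [← e_c]
        exact Subsemigroup.mul_mem _ (base _ _ hj hm) (hc k)
    rcases hij with rfl | ⟨k, rfl⟩
    · exact h1
    · rw [← c_e]
      exact Subsemigroup.mul_mem _ (hc k) h1
  have hz : (z : El M) ∈ Subsemigroup.closure (gens M : Set (El M)) := by
    have h1 : (e none none * e (some (false, 0)) none : El M) = z := e_e_zero rfl
    rw [← h1]
    exact Subsemigroup.mul_mem _ (he _ _) (he _ _)
  rw [eq_top_iff]
  intro x _
  rcases x with k | ⟨i, l⟩ | _
  · exact hc k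
  · exact he i l
  · exact hz

/-- There is an integer `d`, namely `d = 10`, such that for every `D` there is a semigroup of rank
at most `d` whose commuting graph is connected and has two vertices at distance at least `D`. -/
theorem result : ∃ d : ℕ, d = 10 ∧ ∀ D : ℕ, ∃ (S : Type) (_ : Semigroup S),
    (∃ A : Finset S, A.card ≤ d ∧ Subsemigroup.closure (A : Set S) = ⊤) ∧
    (commutingGraph S).Connected ∧
    ∃ x y : {x : S // ¬ ∀ s : S, x * s = s * x}, D ≤ (commutingGraph S).dist x y := by
  refine ⟨10, rfl, fun D => ?_⟩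
  obtain ⟨M, hM⟩ : ∃ M, M = 2 * D + 3 := ⟨_, rfl⟩
  have hconn := connected (M := M) (by omega)
  refine ⟨El M, inferInstance, ⟨gens M, gens_card, gens_closure⟩, hconn,
    ve (some (true, 0), some (true, 0)), ve (some (true, D), some (true, 0)), ?_⟩
  obtain ⟨p, hp⟩ := hconn.exists_walk_length_eq_dist
    (ve (some (true, 0), some (true, 0))) (ve (some (true, D), some (true, 0)))
  rw [← hp]
  obtain ⟨k, hk, hpot⟩ := pot_walk p
  simp only [ve, pot, val] at hpot
  push_cast at hpot
  rw [sub_zero, zero_sub, neg_zero, zero_add] at hpot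
  have h1 : ((D : ℤ) : ZMod M) = (k : ZMod M) := by exact_mod_cast hpot
  rw [ZMod.intCast_eq_intCast_iff_dvd_sub] at h1
  by_contra hcon
  push Not at hcon
  have hk2 : |k| < D := by
    have : (p.length : ℤ) < D := by exact_mod_cast hcon
    linarith
  rw [abs_lt] at hk2
  obtain ⟨t, ht⟩ := h1
  rw [hM] at ht
  push_cast at ht
  have ht0 : t = 0 := by
    by_contra hne
    rcases lt_or_gt_of_ne hne with h | h
    · nlinarith
    · nlinarith
  rw [ht0, mul_zero] at ht
  linarith

end Pool.Agent.Results.MP_cf426b_al.RankTenUnbounded
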